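import Mathlib
import Pool.Agent.H45.XR.Defs
import Pool.Agent.H7.XR.A1

set_option autoImplicit false

open MeasureTheory Set Filter Topology
open scoped Real ENNReal

namespace Pool.Agent.H45.XR

/-- A line which misses the interior of a body is a support line. -/
theorem side_of_miss {C : Set ℂ} (hC : Body C) {φ c : ℝ}
    (hc : ∀ z ∈ interior C, tc φ z ≠ c) :
    (∀ z ∈ C, tc φ z ≤ c) ∨ (∀ z ∈ C, c ≤ tc φ z) := by
  have key : ∀ z ∈ C, ∀ s : ℝ, 0 < s → s < 1 → (s : ℝ) • z ∈ interior C := by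
    intro z hz s hs hs1
    have h := hC.conv.openSegment_interior_self_subset_interior hC.zero hz
    apply h
    refine ⟨1 - s, s, by linarith, hs, by ring, ?_⟩
    simp
  have h0 : c ≠ 0 := fun h => hc 0 hC.zero (by simp [h])
  rcases lt_or_gt_of_ne h0 with h | h
  · right
    intro z hz
    by_contra hlt
    push Not at hlt
    have hz0 : tc φ z < 0 := by linarith
    have := hc _ (key z hz (c / tc φ z) (div_pos_of_neg_of_neg h hz0)
      (by rw [div_lt_one_of_neg hz0]; exact hlt))
    apply this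
    rw [tc_smul, div_mul_cancel₀ _ hz0.ne]
  · left
    intro z hz
    by_contra hlt
    push Not at hlt
    have hz0 : 0 < tc φ z := by linarith
    have := hc _ (key z hz (c / tc φ z) (div_pos h hz0)
      (by rw [div_lt_one hz0]; exact hlt))
    apply this
    rw [tc_smul, div_mul_cancel₀ _ hz0.ne']

/-- C0 -/
theorem noSeg_countable {C : Set ℂ} (hC : Body C) : {φ : ℝ | ¬ NoSeg C φ}.Countable := by
  set S : ℚ → Set ℝ := fun r => {φ | ∃ p ∈ C, ∃ q ∈ C, p ≠ q ∧ tc φ p = tc φ q ∧
    (∀ z ∈ interior C, tc φ z ≠ tc φ p) ∧ ∃ t : ℝ, 0 < t ∧ t < 1 ∧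
      pt C r = (1 - t) • p + t • q} with hSdef
  have hsub : {φ : ℝ | ¬ NoSeg C φ} ⊆ ⋃ r : ℚ, S r := by
    intro φ hφ
    simp only [mem_ofPred_eq, NoSeg] at hφ
    push Not at hφ
    obtain ⟨p, hp, q, hq, hne, htc, hmiss⟩ := hφ
    -- the cone over the open segment
    have hc0 : tc φ p ≠ 0 := fun h => hmiss 0 hC.zero (by simp [h])
    set z0 : ℂ := (1 / 2 : ℝ) • p + (1 / 2 : ℝ) • q with hz0
    have htz0 : tc φ z0 = tc φ p := by
      rw [hz0, tc_add, tc_smul, tc_smul, ← htc]; ring
    have hz0ne : z0 ≠ 0 := by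
      intro h; rw [h, tc_zero] at htz0; exact hc0 htz0.symm
    -- coordinates: every z near z0 is a p + b q
    -- y-coordinates
    have hy : yc φ p ≠ yc φ q := by
      intro h
      apply hne
      rw [decomp φ p, decomp φ q, htc, h]
    -- the functions a(z), b(z)
    set u : ℂ → ℝ := fun z => tc φ z / tc φ p with hu
    -- a + b = u, a yp + b yq = y  => b = (y - u yp)/(yq - yp)
    set b : ℂ → ℝ := fun z => (yc φ z - u z * yc φ p) / (yc φ q - yc φ p) with hb
    have hyy : yc φ q - yc φ p ≠ 0 := fun h => hy (by linarith)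
    have hucont : Continuous u := (continuous_tc φ).div_const _
    have hbcont : Continuous b := (((continuous_yc φ).sub (hucont.mul continuous_const))).div_const _
    have hu0 : u z0 = 1 := by simp [hu, htz0, div_self hc0]
    have hb0 : b z0 = 1 / 2 := by
      simp only [hb, hu0]
      rw [hz0, yc_add, yc_smul, yc_smul]
      field_simp
      ring
    have hopen : {z : ℂ | 0 < b z ∧ b z < u z} ∈ 𝓝 z0 := by
      apply IsOpen.mem_nhds
      · exact (isOpen_lt continuous_const hbcont).inter (isOpen_lt hbcont hucont)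
      · constructor
        · rw [hb0]; norm_num
        · rw [hb0, hu0]; norm_num
    have hrep : ((‖z0‖ : ℝ) : ℂ) * e (Complex.arg z0) = z0 := by
      rw [e]; exact Complex.norm_mul_exp_arg_mul_I z0
    have hcont : Continuous fun θ : ℝ => ((‖z0‖ : ℝ) : ℂ) * e θ :=
      continuous_const.mul continuous_e
    have hpre : (fun θ : ℝ => ((‖z0‖ : ℝ) : ℂ) * e θ) ⁻¹' {z : ℂ | 0 < b z ∧ b z < u z} ∈
        𝓝 (Complex.arg z0) := by
      apply hcont.continuousAt
      change _ ∈ 𝓝 (((‖z0‖ : ℝ) : ℂ) * e (Complex.arg z0))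
      rw [hrep]
      exact hopen
    obtain ⟨U, hUsub, hUo, hUm⟩ := mem_nhds_iff.1 hpre
    obtain ⟨r, hr⟩ := (Rat.denseRange_cast (𝕜 := ℝ)).exists_mem_open hUo ⟨_, hUm⟩
    have hzr := hUsub hr
    set z : ℂ := ((‖z0‖ : ℝ) : ℂ) * e (r : ℝ) with hz
    obtain ⟨hb1, hb2⟩ : 0 < b z ∧ b z < u z := hzr
    have hupos : 0 < u z := hb1.trans hb2
    have hzdec : z = (u z - b z) • p + b z • q := by
      have e1 : tc φ z = tc φ ((u z - b z) • p + b z • q) := by
        rw [tc_add, tc_smul, tc_smul, ← htc]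
        simp only [hu]; field_simp; ring
      have e2 : yc φ z = yc φ ((u z - b z) • p + b z • q) := by
        rw [yc_add, yc_smul, yc_smul]
        simp only [hb]; field_simp; ring
      have e3 := decomp φ z
      have e4 := decomp φ ((u z - b z) • p + b z • q)
      rw [← e1, ← e2] at e4
      exact e3.trans e4.symm
    refine mem_iUnion.2 ⟨r, p, hp, q, hq, hne, htc, hmiss, b z / u z, div_pos hb1 hupos,
      by rw [div_lt_one hupos]; exact hb2, ?_⟩
    -- the point x = z / u
    set x : ℂ := (1 - b z / u z) • p + (b z / u z) • q with hx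
    have hxC : x ∈ C := hC.conv hp hq (by
      have : b z / u z < 1 := by rw [div_lt_one hupos]; exact hb2
      linarith) (div_pos hb1 hupos).le (by ring)
    have htx : tc φ x = tc φ p := by
      rw [hx, tc_add, tc_smul, tc_smul, ← htc]; ring
    have hxni : x ∉ interior C := fun h => hmiss x h htx
    have hxz : x = ((‖z0‖ / u z : ℝ) : ℂ) * e (r : ℝ) := by
      have h1 : (u z) • x = z := by
        rw [hx, smul_add, smul_smul, smul_smul, mul_sub, mul_one,
          mul_div_cancel₀ _ hupos.ne']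
        exact hzdec.symm
      have h2 : x = (u z)⁻¹ • z := by
        calc x = (u z)⁻¹ • ((u z) • x) := by
              rw [smul_smul, inv_mul_cancel₀ hupos.ne', one_smul]
          _ = (u z)⁻¹ • z := by rw [h1]
      rw [h2, hz, Complex.real_smul]
      push_cast
      ring
    have hs0 : 0 ≤ ‖z0‖ / u z := div_nonneg (norm_nonneg _) hupos.le
    rw [hxz] at hxC hxni
    have h1 := (mem_iff_le_rad hC r hs0).1 hxC
    have h2 : ¬ (‖z0‖ / u z < rad C r) := fun h => hxni ((mem_interior_iff_lt_rad hC r hs0).2 h)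
    have h3 : ‖z0‖ / u z = rad C r := le_antisymm h1 (not_lt.1 h2)
    rw [hxz, h3, pt]
  refine Countable.mono hsub (countable_iUnion fun r => ?_)
  rcases (S r).eq_empty_or_nonempty with h | ⟨φ₀, h₀⟩
  · rw [h]; exact countable_empty
  refine Countable.mono (s₂ := Set.range fun k : ℤ => φ₀ + k * π) ?_ (countable_range _)
  intro φ' h'
  obtain ⟨p, hp, q, hq, hne, htc, hmiss, t, ht0, ht1, hpt⟩ := h₀
  obtain ⟨p', hp', q', hq', hne', htc', hmiss', t', ht0', ht1', hpt'⟩ := h'
  have hx' : tc φ' (pt C r) = tc φ' p' := by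
    rw [hpt', tc_add, tc_smul, tc_smul, ← htc']; ring
  have hx : tc φ' (pt C r) = (1 - t) * tc φ' p + t * tc φ' q := by
    rw [hpt, tc_add, tc_smul, tc_smul]
  have hpq : tc φ' p = tc φ' q := by
    rcases side_of_miss hC hmiss' with h | h
    · have h1 := h p hp
      have h2 := h q hq
      rw [← hx', hx] at h1 h2
      nlinarith
    · have h1 := h p hp
      have h2 := h q hq
      rw [← hx', hx] at h1 h2
      nlinarith
  have h1 := eq_add_of_tc_eq htc
  have hy : yc φ₀ p - yc φ₀ q ≠ 0 := by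
    intro h
    rw [h] at h1
    apply hne
    simpa using h1
  have h2 : tc φ' p = tc φ' q + (yc φ₀ p - yc φ₀ q) * Real.sin (φ₀ - φ') := by
    conv_lhs => rw [h1]
    rw [tc_add, tc_mul, tc_e]
  have h3 : Real.sin (φ₀ - φ') = 0 := by
    have : (yc φ₀ p - yc φ₀ q) * Real.sin (φ₀ - φ') = 0 := by linarith
    rcases mul_eq_zero.1 this with h | h
    · exact absurd h hy
    · exact h
  obtain ⟨k, hk⟩ := Real.sin_eq_zero_iff.1 h3
  refine ⟨-k, ?_⟩
  push_cast
  linarith

end Pool.Agent.H45.XR
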