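import Mathlib
import Pool.Agent.H45.XR.Defs
import Pool.Agent.H7.XR.A2

set_option autoImplicit false

open MeasureTheory Set Filter Topology
open scoped Real ENNReal

namespace Pool.Agent.H45.XR

/-- C1, relative to the continuity of the angle function (module A2). -/
theorem Zset_closed_aux {C : Set ℂ}
    (hcont : ContinuousOn (fun q : ℝ × ℝ => Phi C q.1 q.2) {q | q.1 < q.2 ∧ q.2 < q.1 + 2 * π})
    {M : ℕ} (hM : 0 < M) (c : Fin 3 → ℤ) {κ : ℝ}
    (hκ : 0 < κ) : IsClosed (Zset C M c κ) := by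
  have hpi := Real.pi_pos
  -- basic facts on admissible sequences
  have hper : ∀ v : ℤ → ℝ, (∀ x, v (x + M) = v x + 2 * π) → ∀ (k : ℤ), v (k * M) = v 0 + 2 * π * k := by
    intro v hv k
    induction k using Int.induction_on with
    | zero => simp
    | succ i ih =>
      have := hv ((i : ℤ) * M)
      rw [show ((i : ℤ) + 1) * (M : ℤ) = (i : ℤ) * M + M by ring, this, ih]
      push_cast; ring
    | pred i ih =>
      have := hv ((-(i : ℤ) - 1) * M)
      rw [show (-(i : ℤ) - 1) * (M : ℤ) + M = -(i : ℤ) * M by ring, ih] at this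
      have h2 : v ((-(i : ℤ) - 1) * M) = v 0 + 2 * π * ((-(i : ℤ) : ℤ) : ℝ) - 2 * π := by linarith
      rw [h2]
      push_cast; ring
  have hgap : ∀ v : ℤ → ℝ, (∀ x, v x + κ ≤ v (x + 1)) → ∀ (x y : ℤ), x < y → v x + κ ≤ v y := by
    intro v hv x y hxy
    obtain ⟨n, rfl⟩ : ∃ n : ℕ, y = x + 1 + n := ⟨(y - x - 1).toNat, by omega⟩
    clear hxy
    induction n with
    | zero => simpa using hv x
    | succ n ih =>
      have := hv (x + 1 + n)
      rw [show x + 1 + ((n + 1 : ℕ) : ℤ) = x + 1 + n + 1 by push_cast; ring]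
      linarith
  have hbd : ∀ v : ℤ → ℝ, (∀ x, v (x + M) = v x + 2 * π) → (∀ x, v x + κ ≤ v (x + 1)) →
      v 0 ∈ Icc 0 (2 * π) → ∀ x : ℤ, v x ∈ Icc (-(2 * π * (|x| : ℤ))) (2 * π * ((|x| : ℤ) + 1)) := by
    intro v h1 h2 h3 x
    have hmono : ∀ x y : ℤ, x ≤ y → v x ≤ v y := by
      intro x y hxy
      rcases hxy.eq_or_lt with rfl | h
      · exact le_rfl
      · have := hgap v h2 x y h; linarith
    have hM1 : (1 : ℤ) ≤ M := by exact_mod_cast hM
    have ha : x ≤ |x| * M := by nlinarith [le_abs_self x, abs_nonneg x]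
    have hb : -|x| * M ≤ x := by nlinarith [neg_abs_le x, abs_nonneg x]
    have e1 := hmono _ _ ha
    have e2 := hmono _ _ hb
    rw [hper v h1] at e1 e2
    push_cast at e1 e2 ⊢
    constructor
    · linarith [h3.1]
    · linarith [h3.2]
  rw [← isSeqClosed_iff_isClosed]
  intro φs φ hφs hlim
  choose v h1 h2 h3 h4 using hφs
  have hK : IsCompact (Set.pi univ fun x : ℤ =>
      Icc (-(2 * π * ((|x| : ℤ) : ℝ))) (2 * π * (((|x| : ℤ) : ℝ) + 1))) :=
    isCompact_univ_pi fun x => isCompact_Icc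
  obtain ⟨w, -, s, hs, hw⟩ := hK.tendsto_subseq (x := v)
    (fun n x _ => hbd (v n) (h1 n) (h2 n) (h3 n) x)
  have hwx : ∀ x, Tendsto (fun n => v (s n) x) atTop (𝓝 (w x)) := by
    intro x
    have := (tendsto_pi_nhds.1 hw) x
    exact this
  have hw2 : ∀ x, w x + κ ≤ w (x + 1) := fun x =>
    le_of_tendsto_of_tendsto' ((hwx x).add_const κ) (hwx (x + 1)) fun n => h2 (s n) x
  have hw1 : ∀ x, w (x + M) = w x + 2 * π := fun x =>
    tendsto_nhds_unique (hwx (x + M))
      (((hwx x).add_const (2 * π)).congr fun n => (h1 (s n) x).symm)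
  refine ⟨w, hw1, hw2, ?_, ?_⟩
  · exact isClosed_Icc.mem_of_tendsto (hwx 0) (Eventually.of_forall fun n => h3 (s n))
  · intro i x y hxy hlt hlt'
    have g1 := hgap w hw2 x y hlt
    have g2 := hgap w hw2 y (x + M) hlt'
    rw [hw1] at g2
    have hmem : ((w x, w y) : ℝ × ℝ) ∈ {q : ℝ × ℝ | q.1 < q.2 ∧ q.2 < q.1 + 2 * π} :=
      ⟨by show w x < w y; linarith, by show w y < w x + 2 * π; linarith⟩
    have hc := hcont _ hmem
    have ht : Tendsto (fun n => ((v (s n) x, v (s n) y) : ℝ × ℝ)) atTop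
        (𝓝[{q : ℝ × ℝ | q.1 < q.2 ∧ q.2 < q.1 + 2 * π}] (w x, w y)) := by
      apply tendsto_nhdsWithin_of_tendsto_nhds_of_eventually_within
      · exact (hwx x).prodMk_nhds (hwx y)
      · refine Eventually.of_forall fun n => ?_
        have g1 := hgap _ (h2 (s n)) x y hlt
        have g2 := hgap _ (h2 (s n)) y (x + M) hlt'
        rw [h1] at g2
        exact ⟨by show v (s n) x < v (s n) y; linarith,
          by show v (s n) y < v (s n) x + 2 * π; linarith⟩
    have hlim1 := hc.tendsto.comp ht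
    have hlim2 : Tendsto (fun n => φs (s n) i) atTop (𝓝 (φ i)) :=
      ((tendsto_pi_nhds.1 hlim) i).comp hs.tendsto_atTop
    refine tendsto_nhds_unique hlim1 (hlim2.congr fun n => ?_)
    exact (h4 (s n) i x y hxy hlt hlt').symm

/-- C1 -/
theorem Zset_closed {C : Set ℂ} (hC : Body C) {M : ℕ} (hM : 0 < M) (c : Fin 3 → ℤ) {κ : ℝ}
    (hκ : 0 < κ) : IsClosed (Zset C M c κ) :=
  Zset_closed_aux (Phi_cont hC) hM c hκ

end Pool.Agent.H45.XR
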